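import Pool.Agent.Helper64.BKA.Stmts

set_option autoImplicit false

open NumberField
open scoped Classical

namespace BKA

theorem ext_ne_zero_iff {G R : Type} [Group G] [Field R] (H : Subgroup G) (χ : H →* Rˣ) (y : G) :
    ext H χ y ≠ 0 ↔ y ∈ H := by
  unfold ext
  constructor
  · intro h
    by_contra hy
    exact h (dif_neg hy)
  · intro hy
    rw [dif_pos hy]
    exact Units.ne_zero _

theorem st_CNJ : ST_CNJ := by
  intro G R _ _ _ H K χ ψ t hty g
  have hmem : ∀ y : G, t * y * t⁻¹ ∈ K ↔ y ∈ H := by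
    intro y
    rw [← ext_ne_zero_iff K ψ, ← ext_ne_zero_iff H χ, hty y]
  have hcard : Nat.card K = Nat.card H := by
    symm
    refine Nat.card_congr
      { toFun := fun y => ⟨t * y * t⁻¹, (hmem y).2 y.2⟩
        invFun := fun z => ⟨t⁻¹ * z * t, (hmem _).1 (by
          have : t * (t⁻¹ * (z : G) * t) * t⁻¹ = z := by group
          rw [this]; exact z.2)⟩
        left_inv := fun y => by
          apply Subtype.ext
          show t⁻¹ * (t * (y : G) * t⁻¹) * t = y
          group
        right_inv := fun z => by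
          apply Subtype.ext
          show t * (t⁻¹ * (z : G) * t) * t⁻¹ = z
          group }
  unfold ind
  rw [hcard]
  have hsum : ∑ x : G, ext K ψ (x⁻¹ * g * x) = ∑ x : G, ext H χ (x⁻¹ * g * x) := by
    rw [← Equiv.sum_comp (Equiv.mulRight t⁻¹) (fun x : G => ext K ψ (x⁻¹ * g * x))]
    refine Finset.sum_congr rfl fun x _ => ?_
    have h1 : ((Equiv.mulRight t⁻¹) x)⁻¹ * g * (Equiv.mulRight t⁻¹) x =
        t * (x⁻¹ * g * x) * t⁻¹ := by
      simp only [Equiv.coe_mulRight]
      group
    show ext K ψ (((Equiv.mulRight t⁻¹) x)⁻¹ * g * (Equiv.mulRight t⁻¹) x) = _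
    rw [h1, hty]
  rw [hsum]

end BKA
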