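import Pool.Agent.Helper39.BKA.CNJ

set_option autoImplicit false

open NumberField
open scoped Classical

namespace BKA

/-- finite commutative groups: the sum of the values of all characters -/
theorem sum_char_eq {Q R : Type} [CommGroup Q] [Finite Q] [Field R]
    [HasEnoughRootsOfUnity R (Monoid.exponent Q)] {r : ℕ} (e : Fin r ≃ (Q →* Rˣ)) (q : Q)
    (hq : q ≠ 1) : ∑ i, ((e i q : Rˣ) : R) = 0 := by
  obtain ⟨φ, hφ⟩ := CommGroup.exists_apply_ne_one_of_hasEnoughRootsOfUnity Q R hq
  have hsum : ∑ i, ((e i q : Rˣ) : R) = ((φ q : Rˣ) : R) * ∑ i, ((e i q : Rˣ) : R) := by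
    rw [Finset.mul_sum]
    rw [← Equiv.sum_comp ((e.trans (Equiv.mulLeft φ)).trans e.symm)]
    refine Finset.sum_congr rfl fun i _ => ?_
    simp only [Equiv.trans_apply, Equiv.coe_mulLeft, Equiv.apply_symm_apply, MonoidHom.mul_apply,
      Units.val_mul]
  have h1 : (1 - ((φ q : Rˣ) : R)) * ∑ i, ((e i q : Rˣ) : R) = 0 := by
    rw [sub_mul, one_mul, ← hsum, sub_self]
  rcases mul_eq_zero.1 h1 with h | h
  · exfalso
    apply hφ
    apply Units.ext
    rw [Units.val_one]
    exact (sub_eq_zero.1 h).symm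
  · exact h

theorem st_EXT : ST_EXT := by
  intro G R _ _ _ _ _ H K hHK ψ hN hab
  haveI : (H.subgroupOf K).Normal := hN
  let Q := K ⧸ H.subgroupOf K
  have hcomm : ∀ a b : Q, a * b = b * a := by
    intro a b
    obtain ⟨a, rfl⟩ := QuotientGroup.mk'_surjective (H.subgroupOf K) a
    obtain ⟨b, rfl⟩ := QuotientGroup.mk'_surjective (H.subgroupOf K) b
    rw [← map_mul, ← map_mul]
    apply (QuotientGroup.eq (s := H.subgroupOf K)).2
    rw [Subgroup.mem_subgroupOf]
    have h1 := hab (b : G)⁻¹ (K.inv_mem b.2) (a : G)⁻¹ (K.inv_mem a.2)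
    have h2 : (((a * b)⁻¹ * (b * a) : K) : G) = (b : G)⁻¹ * (a : G)⁻¹ * (b : G)⁻¹⁻¹ * (a : G)⁻¹⁻¹ := by
      push_cast
      group
    rw [h2]
    exact h1
  letI : CommGroup Q := { (inferInstance : Group Q) with mul_comm := hcomm }
  have hexp : Monoid.exponent Q ∣ Monoid.exponent G :=
    (Group.exponent_quotient_dvd (H.subgroupOf K)).trans
      (Monoid.exponent_submonoid_dvd K.toSubmonoid)
  haveI : HasEnoughRootsOfUnity R (Monoid.exponent Q) :=
    HasEnoughRootsOfUnity.of_dvd R hexp
  haveI : Finite Q := inferInstance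
  have hcard : Nat.card (Q →* Rˣ) = Nat.card Q :=
    CommGroup.card_monoidHom_of_hasEnoughRootsOfUnity Q R
  haveI : Finite (Q →* Rˣ) := Nat.finite_of_card_ne_zero (by rw [hcard]; exact Nat.card_pos.ne')
  let e : Fin (Nat.card (Q →* Rˣ)) ≃ (Q →* Rˣ) := (Finite.equivFin _).symm
  refine ⟨Nat.card (Q →* Rˣ), fun i => (e i).comp (QuotientGroup.mk' (H.subgroupOf K)), ?_, ?_, ?_⟩
  · intro i j hij
    apply e.injective
    exact (MonoidHom.cancel_right (QuotientGroup.mk'_surjective (H.subgroupOf K))).1 hij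
  · intro χ
    constructor
    · intro h
      have hker : H.subgroupOf K ≤ χ.ker := by
        intro x hx
        rw [MonoidHom.mem_ker]
        exact h x (Subgroup.mem_subgroupOf.1 hx)
      refine ⟨e.symm (QuotientGroup.lift (H.subgroupOf K) χ hker), ?_⟩
      ext x
      simp only [Equiv.apply_symm_apply, MonoidHom.comp_apply]
      rfl
    · rintro ⟨i, rfl⟩ h hh
      show e i (QuotientGroup.mk' (H.subgroupOf K) h) = 1
      have : QuotientGroup.mk' (H.subgroupOf K) h = 1 :=
        (QuotientGroup.eq_one_iff h).2 (Subgroup.mem_subgroupOf.2 hh)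
      rw [this, map_one]
  · intro g
    have hkey : ∀ y : G, ∑ i, ext K (ψ * (e i).comp (QuotientGroup.mk' (H.subgroupOf K))) y =
        (Nat.card Q : R) * ext H (ψ.comp (Subgroup.inclusion hHK)) y := by
      intro y
      by_cases hyK : y ∈ K
      · have h1 : ∀ i, ext K (ψ * (e i).comp (QuotientGroup.mk' (H.subgroupOf K))) y =
            ((ψ ⟨y, hyK⟩ : Rˣ) : R) *
              ((e i (QuotientGroup.mk' (H.subgroupOf K) ⟨y, hyK⟩) : Rˣ) : R) := by
          intro i
          unfold ext
          rw [dif_pos hyK, MonoidHom.mul_apply, Units.val_mul]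
          rfl
        rw [Finset.sum_congr rfl fun i _ => h1 i, ← Finset.mul_sum]
        by_cases hyH : y ∈ H
        · have h2 : QuotientGroup.mk' (H.subgroupOf K) ⟨y, hyK⟩ = 1 :=
            (QuotientGroup.eq_one_iff _).2 (Subgroup.mem_subgroupOf.2 hyH)
          rw [h2]
          simp only [map_one, Units.val_one, Finset.sum_const, Finset.card_univ, Fintype.card_fin,
            nsmul_eq_mul, mul_one]
          rw [hcard]
          unfold ext
          rw [dif_pos hyH, mul_comm]
          rfl
        · have h2 : QuotientGroup.mk' (H.subgroupOf K) ⟨y, hyK⟩ ≠ 1 := by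
            intro h
            exact hyH (Subgroup.mem_subgroupOf.1 ((QuotientGroup.eq_one_iff _).1 h))
          rw [sum_char_eq e _ h2, mul_zero]
          unfold ext
          rw [dif_neg hyH, mul_zero]
      · have hyH : y ∉ H := fun h => hyK (hHK h)
        have h1 : ∀ i, ext K (ψ * (e i).comp (QuotientGroup.mk' (H.subgroupOf K))) y = 0 := by
          intro i
          unfold ext
          rw [dif_neg hyK]
        rw [Finset.sum_congr rfl fun i _ => h1 i]
        unfold ext
        rw [dif_neg hyH, mul_zero, Finset.sum_const_zero]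
    have hcardK : (Nat.card K : R) = (Nat.card Q : R) * (Nat.card H : R) := by
      rw [Subgroup.card_eq_card_quotient_mul_card_subgroup (H.subgroupOf K), Nat.cast_mul]
      congr 2
      exact Nat.card_congr (Subgroup.subgroupOfEquivOfLe hHK).toEquiv
    have hQ : (Nat.card Q : R) ≠ 0 := Nat.cast_ne_zero.2 Nat.card_pos.ne'
    have hH : (Nat.card H : R) ≠ 0 := Nat.cast_ne_zero.2 Nat.card_pos.ne'
    unfold ind
    rw [← Finset.mul_sum, Finset.sum_comm, Finset.sum_congr rfl fun x _ => hkey (x⁻¹ * g * x),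
      ← Finset.mul_sum, hcardK]
    field_simp

end BKA
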